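import Mathlib
import Pool.Agent.H70.Orders
import Pool.Agent.H70.CountThree

/-!
# MP_6073f3_nt: many elliptic curves of rank at least three

For every `ε > 0` at least `c X ^ (7 / 12 - ε)` elliptic curves over the rationals have naive height
and minimal discriminant (and hence conductor) at most `X` and rank at least three.
-/

set_option autoImplicit false

namespace Pool.Agent.Results.MP_6073f3_nt.ManyCurvesOfRankThree

open Finset Classical Pool.Agent.H70 Pool.Agent.H70.Three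

theorem isReduced_of {t : ℕ} {p : Par} (hp : p ∈ box t) (hn : ¬ NonRed t p) :
    IsReduced (F p) ∧ 3 ≤ rank (F p) := by
  have ca : pa p % 30 = 6 := by simp only [pa]; omega
  have cb : pb p % 30 = 3 := by simp only [pb]; omega
  have cq : pq p % 30 = 16 := by simp only [pq]; omega
  have ck : pk p % 30 = 0 := by simp only [pk]; omega
  have cx : px p % 30 = 3 := by simp only [px]; omega
  obtain ⟨hD, hr⟩ := rank_three _ _ _ _ _ ca cb cq cx ck
  obtain ⟨hA, -⟩ := cong _ _ _ _ _ ca cb cq cx ck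
  have hA30 : (F p).1 % 30 = 23 := by
    have : dA 6 3 16 3 0 % 30 = 23 := by decide
    exact Eq.trans hA this
  obtain ⟨ba, bb, bq, bk, bx⟩ := bounds hp
  obtain ⟨-, -, -, -, sA, -, -⟩ := sizes (by positivity) ba bb bq bk bx
  refine ⟨⟨hD, ?_⟩, hr⟩
  rintro q hq ⟨h4, -⟩
  rcases lt_or_ge q 7 with h | h
  · have h2 := hq.two_le
    have hd : (q : ℤ) ∣ (F p).1 := dvd_trans (dvd_pow_self _ (by norm_num)) h4
    interval_cases q
    · obtain ⟨v, hv⟩ := hd
      push_cast at hv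
      omega
    · obtain ⟨v, hv⟩ := hd
      push_cast at hv
      omega
    · exact absurd hq (by norm_num)
    · obtain ⟨v, hv⟩ := hd
      push_cast at hv
      omega
    · exact absurd hq (by norm_num)
  · apply hn
    refine ⟨q, hq, h, ?_, h4⟩
    have hA0 : (F p).1 ≠ 0 := by
      intro h0
      rw [h0] at hA30
      norm_num at hA30
    have h7 : (q : ℤ) ^ 4 ≤ |(F p).1| := Int.le_of_dvd (abs_pos.2 hA0) ((dvd_abs _ _).2 h4)
    have h8 : (q : ℤ) ^ 4 ≤ (71 * (t : ℤ)) ^ 4 := by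
      calc (q : ℤ) ^ 4 ≤ 25000000 * (t : ℤ) ^ 4 := h7.trans sA
        _ ≤ 25411681 * (t : ℤ) ^ 4 := by
          have : (0 : ℤ) ≤ (t : ℤ) ^ 4 := by positivity
          linarith
        _ = (71 * (t : ℤ)) ^ 4 := by ring
    have h9 : (q : ℤ) ≤ 71 * (t : ℤ) := (pow_le_pow_iff_left₀ (by positivity) (by positivity)
      (by norm_num)).1 h8
    exact_mod_cast h9

/-- The constant in the bound for the number of divisors. -/
theorem divisor_bound (K : ℕ) : ∃ D : ℕ, 1 ≤ D ∧ ∀ t : ℕ, 1 ≤ t → ∃ M : ℕ, 1 ≤ M ∧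
    M ^ K ≤ D * t ^ 8 ∧ ∀ N : ℤ, N ≠ 0 → |N| ≤ 3000000000000000 * (t : ℤ) ^ 8 →
      N.natAbs.divisors.card ≤ M := by
  obtain ⟨C, hC, hdiv⟩ := card_divisors_pow_le K
  refine ⟨C * 3000000000000000, by omega, fun t ht => ?_⟩
  -- `M` is the largest number of divisors
  set T : Finset ℕ := (Icc 1 (3000000000000000 * t ^ 8)).image (fun n => n.divisors.card) with hT
  have hTne : T.Nonempty := by
    refine ⟨(1 : ℕ).divisors.card, mem_image.2 ⟨1, mem_Icc.2 ⟨le_rfl, ?_⟩, rfl⟩⟩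
    have : 0 < t ^ 8 := by positivity
    omega
  set M := T.max' hTne with hM
  obtain ⟨n₀, hn₀, hMn⟩ := mem_image.1 (T.max'_mem hTne)
  rw [mem_Icc] at hn₀
  refine ⟨M, ?_, ?_, ?_⟩
  · rw [hM, ← hMn]
    exact Finset.card_pos.2 ⟨1, Nat.one_mem_divisors.2 (by omega)⟩
  · rw [hM, ← hMn]
    calc n₀.divisors.card ^ K ≤ C * n₀ := hdiv n₀ (by omega)
      _ ≤ C * (3000000000000000 * t ^ 8) := Nat.mul_le_mul_left _ hn₀.2
      _ = C * 3000000000000000 * t ^ 8 := by ring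
  · intro N hN hNle
    apply T.le_max'
    refine mem_image.2 ⟨N.natAbs, mem_Icc.2 ⟨?_, ?_⟩, rfl⟩
    · exact Nat.one_le_iff_ne_zero.2 (by simpa using hN)
    · have : ((N.natAbs : ℕ) : ℤ) ≤ ((3000000000000000 * t ^ 8 : ℕ) : ℤ) := by
        rw [Int.natCast_natAbs]
        push_cast
        exact hNle
      exact_mod_cast this

/-- The count in terms of the parameter `t`. -/
theorem count (δ : ℝ) (hδ : 0 < δ) : ∃ c : ℝ, 0 < c ∧ ∀ t : ℕ, 10000 ≤ t →
    ∃ S : Finset (ℤ × ℤ), c * (t : ℝ) ^ (7 - δ) ≤ S.card ∧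
    ∀ p ∈ S, IsReduced p ∧ height p ≤ 2000000000000000000000000 * (t : ℝ) ^ 12 ∧
      (minDisc p : ℝ) ≤ 2000000000000000000000000 * (t : ℝ) ^ 12 ∧ 3 ≤ rank p := by
  obtain ⟨K, hK⟩ := exists_nat_gt (24 / δ)
  have hK0 : (0 : ℝ) < K := lt_trans (by positivity) hK
  have hKpos : 0 < K := by exact_mod_cast hK0
  obtain ⟨D, hD, hdiv⟩ := divisor_bound K
  have hDr : (1 : ℝ) ≤ D := by exact_mod_cast hD
  set c : ℝ := 1 / (3 * (2 * (73452 * (D : ℝ))) ^ 3) with hc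
  refine ⟨c, by positivity, fun t ht => ?_⟩
  obtain ⟨M, hM1, hMK, hM⟩ := hdiv t (by omega)
  obtain ⟨G, hGbox, hGred, hGcard⟩ := card_image t ht M hM1 hM
  have ht0 : (0 : ℝ) < t := by
    have : 0 < t := by omega
    exact_mod_cast this
  have ht1 : (1 : ℝ) ≤ t := by
    have : 1 ≤ t := by omega
    exact_mod_cast this
  refine ⟨G.image F, ?_, ?_⟩
  · -- `M ≤ D t ^ (8 / K)`
    have hMle : (M : ℝ) ≤ D * (t : ℝ) ^ (8 / (K : ℝ)) := by
      have h1 : (M : ℝ) ^ K ≤ D * (t : ℝ) ^ 8 := by exact_mod_cast hMK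
      have h2 : (D : ℝ) * (t : ℝ) ^ 8 ≤ (D * (t : ℝ) ^ (8 / (K : ℝ))) ^ K := by
        rw [mul_pow]
        have e1 : ((t : ℝ) ^ (8 / (K : ℝ))) ^ K = (t : ℝ) ^ 8 := by
          rw [← Real.rpow_natCast, ← Real.rpow_mul ht0.le, div_mul_cancel₀ _ hK0.ne']
          norm_cast
        rw [e1]
        apply mul_le_mul_of_nonneg_right _ (by positivity)
        calc (D : ℝ) = (D : ℝ) ^ 1 := (pow_one _).symm
          _ ≤ (D : ℝ) ^ K := pow_le_pow_right₀ hDr hKpos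
      exact (pow_le_pow_iff_left₀ (by positivity) (by positivity) hKpos.ne').1 (h1.trans h2)
    have hP1 : (1 : ℝ) ≤ (t : ℝ) ^ (8 / (K : ℝ)) := Real.one_le_rpow ht1 (by positivity)
    have hV : (73448 * (M : ℝ) + 4) ≤ 73452 * D * (t : ℝ) ^ (8 / (K : ℝ)) := by
      have : (1 : ℝ) ≤ D * (t : ℝ) ^ (8 / (K : ℝ)) := by nlinarith
      nlinarith
    have hG : (t : ℝ) ^ 7 ≤ 3 * (2 * (73448 * (M : ℝ) + 4)) ^ 3 * (G.image F).card := by
      exact_mod_cast hGcard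
    have hV3 : 3 * (2 * (73448 * (M : ℝ) + 4)) ^ 3 ≤
        3 * (2 * (73452 * D)) ^ 3 * (t : ℝ) ^ (24 / (K : ℝ)) := by
      have e1 : (t : ℝ) ^ (24 / (K : ℝ)) = ((t : ℝ) ^ (8 / (K : ℝ))) ^ 3 := by
        rw [← Real.rpow_natCast, ← Real.rpow_mul ht0.le]
        congr 1
        push_cast; ring
      rw [e1]
      calc 3 * (2 * (73448 * (M : ℝ) + 4)) ^ 3
          ≤ 3 * (2 * (73452 * D * (t : ℝ) ^ (8 / (K : ℝ)))) ^ 3 := by gcongr
        _ = _ := by ring
    have h24 : (t : ℝ) ^ (24 / (K : ℝ)) ≤ (t : ℝ) ^ δ := by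
      apply Real.rpow_le_rpow_of_exponent_le ht1
      rw [div_le_iff₀ hK0]
      rw [div_lt_iff₀ hδ] at hK
      linarith
    have hcomb : (t : ℝ) ^ 7 ≤ 3 * (2 * (73452 * (D : ℝ))) ^ 3 * (t : ℝ) ^ δ * (G.image F).card := by
      calc (t : ℝ) ^ 7 ≤ 3 * (2 * (73448 * (M : ℝ) + 4)) ^ 3 * (G.image F).card := hG
        _ ≤ 3 * (2 * (73452 * D)) ^ 3 * (t : ℝ) ^ (24 / (K : ℝ)) * (G.image F).card := by gcongr
        _ ≤ _ := by gcongr
    have e7 : (t : ℝ) ^ (7 - δ) = (t : ℝ) ^ 7 / (t : ℝ) ^ δ := by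
      rw [Real.rpow_sub ht0]
      norm_cast
    rw [e7, hc, div_mul_div_comm, one_mul, div_le_iff₀ (by positivity)]
    linarith
  · intro v hv
    obtain ⟨p, hp, rfl⟩ := mem_image.1 hv
    have hpb := hGbox hp
    obtain ⟨r1, r2⟩ := isReduced_of hpb (hGred p hp)
    obtain ⟨ba, bb, bq, bk, bx⟩ := bounds hpb
    obtain ⟨-, -, -, -, sA, sB, -⟩ := sizes (by positivity) ba bb bq bk bx
    have e1 := height_le_real (F p) _ _ sA sB
    have e2 := minDisc_le_real (F p) _ _ sA sB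
    push_cast at e1 e2
    have e3 : 4 * (25000000 * (t : ℝ) ^ 4) ^ 3 + 27 * (20000000000 * (t : ℝ) ^ 6) ^ 2 =
        73300000000000000000000 * (t : ℝ) ^ 12 := by ring
    rw [e3] at e1 e2
    have e4 : (0 : ℝ) ≤ (t : ℝ) ^ 12 := by positivity
    exact ⟨r1, by linarith, by linarith, r2⟩

/-- **Lower bounds for the number of curves of rank at least three in the three orderings**, and for
their proportion among the curves of naive height at most `X`. -/
theorem result (ε : ℝ) (hε : 0 < ε) : ∃ c X₀ : ℝ, 0 < c ∧ ∀ X ≥ X₀,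
    (∃ S : Finset (ℤ × ℤ), c * X ^ ((7 : ℝ) / 12 - ε) ≤ S.card ∧
      ∀ p ∈ S, IsReduced p ∧ height p ≤ X ∧ (minDisc p : ℝ) ≤ X ∧ 3 ≤ rank p) ∧
    c * X ^ (-(1 : ℝ) / 4 - ε) ≤ proportion (fun p => 3 ≤ rank p) X := by
  obtain ⟨c₀, hc₀, hcount⟩ := count (12 * ε) (by positivity)
  obtain ⟨X₀, hX₀, hpar⟩ := exists_param 2000000000000000000000000 (by norm_num) 10000
  set c₁ : ℝ := c₀ * min 1 ((2000000000000000000000000 : ℝ)⁻¹ ^ ((1 : ℝ) / 12) / 2) ^ (7 : ℕ) with hc₁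
  have hmin0 : 0 < min 1 ((2000000000000000000000000 : ℝ)⁻¹ ^ ((1 : ℝ) / 12) / 2) := by
    apply lt_min one_pos; positivity
  have hc₁0 : 0 < c₁ := by positivity
  have main : ∀ X ≥ X₀, ∃ S : Finset (ℤ × ℤ), c₁ * X ^ ((7 : ℝ) / 12 - ε) ≤ S.card ∧
      ∀ p ∈ S, IsReduced p ∧ height p ≤ X ∧ (minDisc p : ℝ) ≤ X ∧ 3 ≤ rank p := by
    intro X hX
    obtain ⟨t, h1, h2, h3, h4⟩ := hpar X hX
    obtain ⟨S, hS, hmem⟩ := hcount t h1
    have hX0 : (0 : ℝ) ≤ X := by linarith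
    have hXpos : (0 : ℝ) < X := by linarith
    have ht1 : (1 : ℝ) ≤ t := by exact_mod_cast h2
    have ht0 : (0 : ℝ) < t := by linarith
    refine ⟨S, ?_, fun p hp => ?_⟩
    · refine le_trans ?_ hS
      rw [hc₁, mul_assoc]
      apply mul_le_mul_of_nonneg_left _ hc₀.le
      set κ := (2000000000000000000000000 : ℝ)⁻¹ ^ ((1 : ℝ) / 12) / 2 with hκ
      have hκ0 : 0 < κ := by positivity
      have e1 : (X / 2000000000000000000000000) ^ ((1 : ℝ) / 12) / 2 = κ * X ^ ((1 : ℝ) / 12) := by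
        rw [div_eq_inv_mul X, Real.mul_rpow (by positivity) hX0]
        ring
      rw [e1] at h4
      -- the exponent `7 - 12 ε` may be negative
      rcases le_or_gt (12 * ε) 7 with h7 | h7
      · have hmin : min 1 κ ^ (7 : ℕ) ≤ κ ^ (7 - 12 * ε) := by
          rcases le_or_gt 1 κ with hk | hk
          · rw [min_eq_left hk, one_pow]
            exact Real.one_le_rpow hk (by linarith)
          · rw [min_eq_right hk.le, ← Real.rpow_natCast]
            apply Real.rpow_le_rpow_of_exponent_ge hκ0 hk.le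
            push_cast
            linarith
        calc min 1 κ ^ (7 : ℕ) * X ^ ((7 : ℝ) / 12 - ε)
            ≤ κ ^ (7 - 12 * ε) * X ^ ((7 : ℝ) / 12 - ε) := by gcongr
          _ = (κ * X ^ ((1 : ℝ) / 12)) ^ (7 - 12 * ε) := by
              rw [Real.mul_rpow hκ0.le (by positivity), ← Real.rpow_mul hX0]
              congr 2
              ring
          _ ≤ (t : ℝ) ^ (7 - 12 * ε) :=
              Real.rpow_le_rpow (by positivity) h4 (by linarith)
      · -- here `X ^ (1 / 12) ≥ t`, as `t ^ 12 ≤ X`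
        have htX : (t : ℝ) ≤ X ^ ((1 : ℝ) / 12) := by
          have : (t : ℝ) ^ 12 ≤ X := by
            have : (0 : ℝ) ≤ (t : ℝ) ^ 12 := by positivity
            linarith
          calc (t : ℝ) = ((t : ℝ) ^ (12 : ℕ)) ^ ((1 : ℝ) / 12) := by
                rw [← Real.rpow_natCast, ← Real.rpow_mul ht0.le]
                norm_num
            _ ≤ _ := Real.rpow_le_rpow (by positivity) this (by norm_num)
        have hle1 : min 1 κ ^ (7 : ℕ) ≤ 1 := pow_le_one₀ hmin0.le (min_le_left _ _)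
        calc min 1 κ ^ (7 : ℕ) * X ^ ((7 : ℝ) / 12 - ε) ≤ 1 * X ^ ((7 : ℝ) / 12 - ε) := by gcongr
          _ = (X ^ ((1 : ℝ) / 12)) ^ (7 - 12 * ε) := by
              rw [one_mul, ← Real.rpow_mul hX0]
              congr 1
              ring
          _ ≤ (t : ℝ) ^ (7 - 12 * ε) :=
              Real.rpow_le_rpow_of_nonpos ht0 htX (by linarith)
    · obtain ⟨m1, m2, m3, m4⟩ := hmem p hp
      exact ⟨m1, m2.trans h3, m3.trans h3, m4⟩
  refine ⟨c₁ / 9, X₀, by positivity, fun X hX => ?_⟩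
  obtain ⟨S, hS, hmem⟩ := main X hX
  have hX1 : 1 ≤ X := le_trans hX₀ hX
  have hX0 : 0 < X := by linarith
  refine ⟨⟨S, ?_, hmem⟩, ?_⟩
  · have : 0 ≤ c₁ * X ^ ((7 : ℝ) / 12 - ε) := by positivity
    have e : c₁ / 9 * X ^ ((7 : ℝ) / 12 - ε) = c₁ * X ^ ((7 : ℝ) / 12 - ε) / 9 := by ring
    linarith
  · set T : Set (ℤ × ℤ) := {p | IsReduced p ∧ height p ≤ X} with hT
    set T3 : Set (ℤ × ℤ) := {p | IsReduced p ∧ height p ≤ X ∧ 3 ≤ rank p} with hT3
    have hfin : T.Finite := finite_height X hX0.le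
    have hf3 : T3.Finite := hfin.subset fun p hp => ⟨hp.1, hp.2.1⟩
    have hsub3 : (S : Set (ℤ × ℤ)) ⊆ T3 := by
      intro p hp
      obtain ⟨m1, m2, _, m4⟩ := hmem p (mem_coe.1 hp)
      exact ⟨m1, m2, m4⟩
    have hcard3 : (S.card : ℝ) ≤ T3.ncard := by
      have := Set.ncard_le_ncard hsub3 hf3
      rw [Set.ncard_coe_finset] at this
      exact_mod_cast this
    have hsubT : T3 ⊆ T := fun p hp => ⟨hp.1, hp.2.1⟩
    have hcardT : (T3.ncard : ℝ) ≤ T.ncard := by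
      exact_mod_cast Set.ncard_le_ncard hsubT hfin
    have hSpos : 0 < (S.card : ℝ) := lt_of_lt_of_le (by positivity) hS
    have hTpos : 0 < (T.ncard : ℝ) := by linarith
    have hTle : (T.ncard : ℝ) ≤ 9 * X ^ ((5 : ℝ) / 6) := ncard_height_le X hX1
    show c₁ / 9 * X ^ (-(1 : ℝ) / 4 - ε) ≤ (T3.ncard : ℝ) / T.ncard
    rw [le_div_iff₀ hTpos]
    have e1 : X ^ (-(1 : ℝ) / 4 - ε) * X ^ ((5 : ℝ) / 6) = X ^ ((7 : ℝ) / 12 - ε) := by
      rw [← Real.rpow_add hX0]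
      congr 1
      ring
    calc c₁ / 9 * X ^ (-(1 : ℝ) / 4 - ε) * T.ncard
        ≤ c₁ / 9 * X ^ (-(1 : ℝ) / 4 - ε) * (9 * X ^ ((5 : ℝ) / 6)) :=
          mul_le_mul_of_nonneg_left hTle (by positivity)
      _ = c₁ * (X ^ (-(1 : ℝ) / 4 - ε) * X ^ ((5 : ℝ) / 6)) := by ring
      _ = c₁ * X ^ ((7 : ℝ) / 12 - ε) := by rw [e1]
      _ ≤ S.card := hS
      _ ≤ T3.ncard := hcard3

end Pool.Agent.Results.MP_6073f3_nt.ManyCurvesOfRankThree
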