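import Mathlib
import Pool.Agent.H70.Orders
import Pool.Agent.H70.RankTwo

/-!
# MP_6073f3_nt: many elliptic curves of rank at least two

At least `c X ^ (2 / 3)` elliptic curves over the rationals have naive height, minimal discriminant
(and hence conductor) at most `X` and rank at least two. In particular the proportion of curves of
rank at least two among the curves of naive height at most `X` is at least `c X ^ (- 1 / 6)`.
-/

set_option autoImplicit false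

namespace Pool.Agent.Results.MP_6073f3_nt.ManyCurvesOfRankTwo

open Finset Classical Pool.Agent.H70 Pool.Agent.H70.Two

theorem curve_eq (p : ℤ × ℤ) : ell p = curve p.1 p.2 := rfl

/-- The coefficients of the curves of the family. -/
theorem size {t : ℕ} {p : ℕ × ℕ × ℕ × ℕ} (hp : p ∈ box t) :
    |(F p).1| ≤ 540 * (t : ℤ) ^ 4 ∧ |(F p).2| ≤ 1332 * (t : ℤ) ^ 6 := by
  obtain ⟨h1, h2, h3, h4⟩ := mem_box hp
  have hc := cc_bounds hp
  have h1' : (p.1 : ℤ) + 1 ≤ (t : ℤ) ^ 2 := by exact_mod_cast h1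
  have h2' : (p.2.1 : ℤ) + 1 ≤ (t : ℤ) ^ 2 := by exact_mod_cast h2
  have h3' : (p.2.2.1 : ℤ) + 1 ≤ t := by exact_mod_cast h3
  have h4' : (p.2.2.2 : ℤ) + 1 ≤ (t : ℤ) ^ 3 := by exact_mod_cast h4
  set a : ℤ := 6 * p.1 + 3 with ha
  set b : ℤ := 6 * p.2.1 + 1 with hb
  set k : ℤ := 6 * p.2.2.1 with hk
  set m : ℤ := 6 * p.2.2.2 + 3 with hm
  set c : ℤ := cc p.1 p.2.1 p.2.2.1 with hcdef
  have a0 : 0 ≤ a := by positivity
  have b0 : 0 ≤ b := by positivity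
  have k0 : 0 ≤ k := by positivity
  have m0 : 0 ≤ m := by positivity
  have a1 : a ≤ 6 * (t : ℤ) ^ 2 := by linarith
  have b1 : b ≤ 6 * (t : ℤ) ^ 2 := by linarith
  have k1 : k ≤ 6 * t := by linarith
  have m1 : m ≤ 6 * (t : ℤ) ^ 3 := by linarith
  have hab : |a * b| ≤ 36 * (t : ℤ) ^ 4 := by
    rw [abs_of_nonneg (mul_nonneg a0 b0)]
    calc a * b ≤ (6 * (t : ℤ) ^ 2) * (6 * (t : ℤ) ^ 2) := mul_le_mul a1 b1 b0 (by positivity)
      _ = 36 * (t : ℤ) ^ 4 := by ring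
  have hkm : |2 * k * m| ≤ 72 * (t : ℤ) ^ 4 := by
    rw [abs_of_nonneg (by positivity)]
    calc 2 * k * m = 2 * (k * m) := by ring
      _ ≤ 2 * ((6 * (t : ℤ)) * (6 * (t : ℤ) ^ 3)) :=
        mul_le_mul_of_nonneg_left (mul_le_mul k1 m1 m0 (by positivity)) (by norm_num)
      _ = 72 * (t : ℤ) ^ 4 := by ring
  have hm2 : |m ^ 2| ≤ 36 * (t : ℤ) ^ 6 := by
    rw [abs_of_nonneg (by positivity)]
    calc m ^ 2 ≤ (6 * (t : ℤ) ^ 3) ^ 2 := pow_le_pow_left₀ m0 m1 2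
      _ = 36 * (t : ℤ) ^ 6 := by ring
  have hs : |(a + b) * c| ≤ 12 * (t : ℤ) ^ 2 * (36 * (t : ℤ) ^ 2) := by
    rw [abs_mul, abs_of_nonneg (add_nonneg a0 b0)]
    exact mul_le_mul (by linarith) hc (abs_nonneg _) (by positivity)
  have hp3 : |a * b * c| ≤ 36 * (t : ℤ) ^ 4 * (36 * (t : ℤ) ^ 2) := by
    rw [abs_mul]
    exact mul_le_mul hab hc (abs_nonneg _) (by positivity)
  have eA : (F p).1 = 2 * k * m + (a * b + (a + b) * c) := by
    simp only [F, cA, hcdef, cc, ha, hb, hk, hm]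
  have eB : (F p).2 = m ^ 2 - a * b * c := by
    simp only [F, cB, hcdef, cc, ha, hb, hm]
  constructor
  · rw [eA]
    refine (abs_add_le _ _).trans ?_
    have := abs_add_le (a * b) ((a + b) * c)
    have e : 12 * (t : ℤ) ^ 2 * (36 * (t : ℤ) ^ 2) = 432 * (t : ℤ) ^ 4 := by ring
    linarith
  · rw [eB]
    refine (abs_sub _ _).trans ?_
    have e : 36 * (t : ℤ) ^ 4 * (36 * (t : ℤ) ^ 2) = 1296 * (t : ℤ) ^ 6 := by ring
    linarith

theorem isReduced_of {t : ℕ} {p : ℕ × ℕ × ℕ × ℕ} (hp : p ∈ box t) (hn : ¬ NonRed t p) :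
    IsReduced (F p) ∧ 2 ≤ rank (F p) := by
  obtain ⟨hD, hr⟩ := rank_two (6 * p.1 + 3) (6 * p.2.1 + 1) (6 * p.2.2.1) (6 * p.2.2.2 + 3)
    (by omega) (by omega) (by omega) (by omega)
  obtain ⟨hA2, hB2⟩ := cong_two (6 * p.1 + 3) (6 * p.2.1 + 1) (6 * p.2.2.1) (6 * p.2.2.2 + 3)
    (by omega) (by omega) (by omega) (by omega)
  obtain ⟨hA3, hB3⟩ := cong_three (6 * p.1 + 3) (6 * p.2.1 + 1) (6 * p.2.2.1) (6 * p.2.2.2 + 3)
    (by omega) (by omega) (by omega) (by omega)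
  refine ⟨⟨hD, ?_⟩, hr⟩
  rintro q hq ⟨h4, h6⟩
  obtain ⟨-, hsB⟩ := size hp
  rcases lt_or_ge q 5 with h | h
  · have h2 := hq.two_le
    have hd : (q : ℤ) ∣ (F p).1 := dvd_trans (dvd_pow_self _ (by norm_num)) h4
    interval_cases q
    · obtain ⟨u, hu⟩ := hA2
      obtain ⟨v, hv⟩ := hd
      change (F p).1 = _ at hu
      push_cast at hv
      omega
    · obtain ⟨u, hu⟩ := hA3
      obtain ⟨v, hv⟩ := hd
      change (F p).1 + 1 = _ at hu
      push_cast at hv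
      omega
    · exact absurd hq (by norm_num)
  · apply hn
    refine ⟨q, hq, h, ?_, h6⟩
    have hB0 : (F p).2 ≠ 0 := by
      intro h0
      obtain ⟨u, hu⟩ := hB2
      change (F p).2 = _ at hu
      omega
    have h7 : (q : ℤ) ^ 6 ≤ |(F p).2| := Int.le_of_dvd (abs_pos.2 hB0) ((dvd_abs _ _).2 h6)
    have h8 : (q : ℤ) ^ 6 ≤ (4 * (t : ℤ)) ^ 6 := by
      calc (q : ℤ) ^ 6 ≤ 1332 * (t : ℤ) ^ 6 := h7.trans hsB
        _ ≤ 4096 * (t : ℤ) ^ 6 := by
          have : (0 : ℤ) ≤ (t : ℤ) ^ 6 := by positivity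
          linarith
        _ = (4 * (t : ℤ)) ^ 6 := by ring
    have h9 : (q : ℤ) ≤ 4 * (t : ℤ) := (pow_le_pow_iff_left₀ (by positivity) (by positivity)
      (by norm_num)).1 h8
    exact_mod_cast h9

/-- The count in terms of the parameter `t`. -/
theorem count : ∃ t₀ : ℕ, ∀ t ≥ t₀, ∃ S : Finset (ℤ × ℤ), (t : ℝ) ^ 8 / 2 ≤ S.card ∧
    ∀ p ∈ S, IsReduced p ∧ height p ≤ 11000000000 * (t : ℝ) ^ 12 ∧
      (minDisc p : ℝ) ≤ 11000000000 * (t : ℝ) ^ 12 ∧ 2 ≤ rank p := by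
  obtain ⟨t₀, ht₀⟩ := card_extra
  refine ⟨max t₀ 320, fun t ht => ?_⟩
  have h1 := ht₀ t (le_trans (le_max_left _ _) ht)
  have h2 := card_nonRed t (le_trans (le_max_right _ _) ht)
  set G := (box t).filter (fun p => ¬ Extra t p ∧ ¬ NonRed t p) with hG
  have hcov : box t ⊆ G ∪ ((box t).filter (Extra t) ∪ (box t).filter (NonRed t)) := by
    intro p hp
    by_cases e1 : Extra t p
    · exact mem_union_right _ (mem_union_left _ (mem_filter.2 ⟨hp, e1⟩))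
    · by_cases e2 : NonRed t p
      · exact mem_union_right _ (mem_union_right _ (mem_filter.2 ⟨hp, e2⟩))
      · exact mem_union_left _ (mem_filter.2 ⟨hp, e1, e2⟩)
  have h3 := (card_le_card hcov).trans ((card_union_le _ _).trans
    (Nat.add_le_add_left (card_union_le _ _) _))
  rw [card_box] at h3
  have h3' : (t : ℝ) ^ 8 ≤ G.card + (((box t).filter (Extra t)).card +
      ((box t).filter (NonRed t)).card) := by exact_mod_cast h3
  have h1' : 4 * (((box t).filter (Extra t)).card : ℝ) ≤ (t : ℝ) ^ 8 := by exact_mod_cast h1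
  refine ⟨G.image F, ?_, ?_⟩
  · rw [card_image_of_injOn]
    · have : (0 : ℝ) ≤ (t : ℝ) ^ 8 := by positivity
      linarith
    · intro p hp p' hp' h
      obtain ⟨g1, g2, _⟩ := mem_filter.1 (mem_coe.1 hp)
      obtain ⟨g3, _⟩ := mem_filter.1 (mem_coe.1 hp')
      exact injOn t g3 g2 h
  · intro v hv
    obtain ⟨p, hp, rfl⟩ := mem_image.1 hv
    obtain ⟨g1, _, g3⟩ := mem_filter.1 hp
    obtain ⟨r1, r2⟩ := isReduced_of g1 g3
    obtain ⟨s1, s2⟩ := size g1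
    have e1 := height_le_real (F p) _ _ s1 s2
    have e2 := minDisc_le_real (F p) _ _ s1 s2
    push_cast at e1 e2
    have e3 : 4 * (540 * (t : ℝ) ^ 4) ^ 3 + 27 * (1332 * (t : ℝ) ^ 6) ^ 2 =
        677760048 * (t : ℝ) ^ 12 := by ring
    rw [e3] at e1 e2
    have e4 : (0 : ℝ) ≤ (t : ℝ) ^ 12 := by positivity
    exact ⟨r1, by linarith, by linarith, r2⟩

/-- **Lower bounds for the number of curves of rank at least two in the three orderings**, and for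
their proportion among the curves of naive height at most `X`. -/
theorem result : ∃ c X₀ : ℝ, 0 < c ∧ ∀ X ≥ X₀,
    (∃ S : Finset (ℤ × ℤ), c * X ^ ((2 : ℝ) / 3) ≤ S.card ∧
      ∀ p ∈ S, IsReduced p ∧ height p ≤ X ∧ (minDisc p : ℝ) ≤ X ∧ 2 ≤ rank p) ∧
    c * X ^ (-(1 : ℝ) / 6) ≤
      1 - proportion (fun p => rank p = 0) X - proportion (fun p => rank p = 1) X := by
  obtain ⟨t₀, ht₀⟩ := count
  obtain ⟨X₀, hX₀, hpar⟩ := exists_param 11000000000 (by norm_num) t₀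
  set c₁ : ℝ := ((11000000000 : ℝ)⁻¹ ^ ((1 : ℝ) / 12) / 2) ^ 8 / 2 with hc₁
  have hc₁0 : 0 < c₁ := by positivity
  have main : ∀ X ≥ X₀, ∃ S : Finset (ℤ × ℤ), c₁ * X ^ ((2 : ℝ) / 3) ≤ S.card ∧
      ∀ p ∈ S, IsReduced p ∧ height p ≤ X ∧ (minDisc p : ℝ) ≤ X ∧ 2 ≤ rank p := by
    intro X hX
    obtain ⟨t, h1, h2, h3, h4⟩ := hpar X hX
    obtain ⟨S, hS, hmem⟩ := ht₀ t h1
    have hX0 : (0 : ℝ) ≤ X := by linarith
    refine ⟨S, ?_, fun p hp => ?_⟩
    · refine le_trans ?_ hS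
      have e1 : (X / 11000000000) ^ ((1 : ℝ) / 12) =
          (11000000000 : ℝ)⁻¹ ^ ((1 : ℝ) / 12) * X ^ ((1 : ℝ) / 12) := by
        rw [div_eq_inv_mul, Real.mul_rpow (by positivity) hX0]
      have e2 : (X ^ ((1 : ℝ) / 12)) ^ 8 = X ^ ((2 : ℝ) / 3) := by
        rw [← Real.rpow_natCast, ← Real.rpow_mul hX0]
        norm_num
      have e3 : ((X / 11000000000) ^ ((1 : ℝ) / 12) / 2) ^ 8 ≤ (t : ℝ) ^ 8 :=
        pow_le_pow_left₀ (by positivity) h4 8
      calc c₁ * X ^ ((2 : ℝ) / 3) = ((X / 11000000000) ^ ((1 : ℝ) / 12) / 2) ^ 8 / 2 := by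
            rw [hc₁, e1, ← e2]; ring
        _ ≤ (t : ℝ) ^ 8 / 2 := by linarith
    · obtain ⟨m1, m2, m3, m4⟩ := hmem p hp
      exact ⟨m1, m2.trans h3, m3.trans h3, m4⟩
  refine ⟨c₁ / 9, X₀, by positivity, fun X hX => ?_⟩
  obtain ⟨S, hS, hmem⟩ := main X hX
  have hX1 : 1 ≤ X := le_trans hX₀ hX
  have hX0 : 0 < X := by linarith
  refine ⟨⟨S, ?_, hmem⟩, ?_⟩
  · have : 0 ≤ c₁ * X ^ ((2 : ℝ) / 3) := by positivity
    have e : c₁ / 9 * X ^ ((2 : ℝ) / 3) = c₁ * X ^ ((2 : ℝ) / 3) / 9 := by ring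
    linarith
  · -- the proportion
    set T : Set (ℤ × ℤ) := {p | IsReduced p ∧ height p ≤ X} with hT
    set T0 : Set (ℤ × ℤ) := {p | IsReduced p ∧ height p ≤ X ∧ rank p = 0} with hT0
    set T1 : Set (ℤ × ℤ) := {p | IsReduced p ∧ height p ≤ X ∧ rank p = 1} with hT1
    have hfin : T.Finite := finite_height X hX0.le
    have hf0 : T0.Finite := hfin.subset fun p hp => ⟨hp.1, hp.2.1⟩
    have hf1 : T1.Finite := hfin.subset fun p hp => ⟨hp.1, hp.2.1⟩
    have hdis1 : Disjoint T0 T1 := by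
      rw [Set.disjoint_left]
      rintro p ⟨_, _, h0⟩ ⟨_, _, h1⟩
      rw [h0] at h1
      exact zero_ne_one h1
    have hdis2 : Disjoint (T0 ∪ T1) (S : Set (ℤ × ℤ)) := by
      rw [Set.disjoint_left]
      intro p hp hpS
      obtain ⟨_, _, _, hr⟩ := hmem p (mem_coe.1 hpS)
      rcases hp with ⟨_, _, h0⟩ | ⟨_, _, h1⟩
      · rw [h0] at hr
        exact absurd hr (by simp)
      · rw [h1] at hr
        exact absurd hr (not_le.2 Cardinal.one_lt_two)
    have hsub : (T0 ∪ T1) ∪ (S : Set (ℤ × ℤ)) ⊆ T := by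
      rintro p ((hp | hp) | hp)
      · exact ⟨hp.1, hp.2.1⟩
      · exact ⟨hp.1, hp.2.1⟩
      · exact ⟨(hmem p (mem_coe.1 hp)).1, (hmem p (mem_coe.1 hp)).2.1⟩
    have hcard : T0.ncard + T1.ncard + S.card ≤ T.ncard := by
      have h1 := Set.ncard_le_ncard hsub hfin
      rw [Set.ncard_union_eq hdis2 (hf0.union hf1) (Finset.finite_toSet _),
        Set.ncard_union_eq hdis1 hf0 hf1, Set.ncard_coe_finset] at h1
      exact h1
    have hcard' : (T0.ncard : ℝ) + T1.ncard + S.card ≤ T.ncard := by exact_mod_cast hcard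
    have hSpos : 0 < (S.card : ℝ) := lt_of_lt_of_le (by positivity) hS
    have hTpos : 0 < (T.ncard : ℝ) := by
      have h0 : (0 : ℝ) ≤ T0.ncard := by positivity
      have h1 : (0 : ℝ) ≤ T1.ncard := by positivity
      linarith
    have hTle : (T.ncard : ℝ) ≤ 9 * X ^ ((5 : ℝ) / 6) := ncard_height_le X hX1
    have hprop : 1 - proportion (fun p => rank p = 0) X - proportion (fun p => rank p = 1) X =
        ((T.ncard : ℝ) - T0.ncard - T1.ncard) / T.ncard := by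
      simp only [proportion]
      change 1 - (T0.ncard : ℝ) / (T.ncard : ℝ) - (T1.ncard : ℝ) / (T.ncard : ℝ) = _
      field_simp
    rw [hprop, le_div_iff₀ hTpos]
    have e1 : X ^ (-(1 : ℝ) / 6) * X ^ ((5 : ℝ) / 6) = X ^ ((2 : ℝ) / 3) := by
      rw [← Real.rpow_add hX0]
      norm_num
    calc c₁ / 9 * X ^ (-(1 : ℝ) / 6) * T.ncard
        ≤ c₁ / 9 * X ^ (-(1 : ℝ) / 6) * (9 * X ^ ((5 : ℝ) / 6)) :=
          mul_le_mul_of_nonneg_left hTle (by positivity)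
      _ = c₁ * (X ^ (-(1 : ℝ) / 6) * X ^ ((5 : ℝ) / 6)) := by ring
      _ = c₁ * X ^ ((2 : ℝ) / 3) := by rw [e1]
      _ ≤ S.card := hS
      _ ≤ (T.ncard : ℝ) - T0.ncard - T1.ncard := by linarith

end Pool.Agent.Results.MP_6073f3_nt.ManyCurvesOfRankTwo
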